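import Pool.Agent.Q120.GE.Stm

/-!
# Project GE, job CHAIN: the chain rule for the relative entropy
-/

set_option autoImplicit false

namespace Pool.Agent.Q222.GE.CHAIN

open Finset MeasureTheory Pool.Agent.Q120.ET Pool.Agent.Q120.GE

theorem sum_powerset_union {A B : Finset ℕ} (h : Disjoint A B) (f : Finset ℕ → ℝ) :
    ∑ T ∈ (A ∪ B).powerset, f T = ∑ T₁ ∈ A.powerset, ∑ T₂ ∈ B.powerset, f (T₁ ∪ T₂) := by
  rw [← sum_product']
  symm
  apply sum_nbij' (fun x : Finset ℕ × Finset ℕ => x.1 ∪ x.2) (fun T => (T ∩ A, T ∩ B))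
  · rintro ⟨x, y⟩ hx
    rw [mem_product, mem_powerset, mem_powerset] at hx
    rw [mem_powerset]
    exact union_subset_union hx.1 hx.2
  · intro T hT
    rw [mem_product, mem_powerset, mem_powerset]
    exact ⟨inter_subset_right, inter_subset_right⟩
  · rintro ⟨x, y⟩ hx
    rw [mem_product, mem_powerset, mem_powerset] at hx
    obtain ⟨hx, hy⟩ := hx
    simp only at hx hy
    apply Prod.ext
    · ext n
      simp only [mem_inter, mem_union]
      constructor
      · rintro ⟨h1 | h1, h2⟩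
        · exact h1
        · exact absurd (hy h1) (Finset.disjoint_left.mp h h2)
      · intro h1
        exact ⟨Or.inl h1, hx h1⟩
    · ext n
      simp only [mem_inter, mem_union]
      constructor
      · rintro ⟨h1 | h1, h2⟩
        · exact absurd h2 (Finset.disjoint_left.mp h (hx h1))
        · exact h1
      · intro h1
        exact ⟨Or.inr h1, hy h1⟩
  · intro T hT
    rw [mem_powerset] at hT
    simp only
    rw [← inter_union_distrib_left, inter_eq_left.mpr hT]
  · rintro ⟨x, y⟩ _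
    rfl

theorem cramer_union {A B T₁ T₂ : Finset ℕ} (h : Disjoint A B) (h1 : T₁ ⊆ A) (h2 : T₂ ⊆ B) :
    cramerOn (A ∪ B) (T₁ ∪ T₂) = cramerOn A T₁ * cramerOn B T₂ := by
  unfold cramerOn
  have d1 : Disjoint T₁ T₂ := disjoint_of_subset_left h1 (disjoint_of_subset_right h2 h)
  have e : (A ∪ B) \ (T₁ ∪ T₂) = (A \ T₁) ∪ (B \ T₂) := by
    ext n
    simp only [mem_sdiff, mem_union]
    constructor
    · rintro ⟨h3 | h3, h4⟩
      · exact Or.inl ⟨h3, fun h5 => h4 (Or.inl h5)⟩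
      · exact Or.inr ⟨h3, fun h5 => h4 (Or.inr h5)⟩
    · rintro (⟨h3, h4⟩ | ⟨h3, h4⟩)
      · refine ⟨Or.inl h3, ?_⟩
        rintro (h5 | h5)
        · exact h4 h5
        · exact Finset.disjoint_left.mp h h3 (h2 h5)
      · refine ⟨Or.inr h3, ?_⟩
        rintro (h5 | h5)
        · exact Finset.disjoint_left.mp h (h1 h5) h3
        · exact h4 h5
  have d2 : Disjoint (A \ T₁) (B \ T₂) :=
    disjoint_of_subset_left sdiff_subset (disjoint_of_subset_right sdiff_subset h)
  rw [e, prod_union d1, prod_union d2]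
  ring

theorem inter_left' {A B T₁ T₂ : Finset ℕ} (h : Disjoint A B) (h1 : T₁ ⊆ A) (h2 : T₂ ⊆ B) :
    (T₁ ∪ T₂) ∩ A = T₁ := by
  ext n
  simp only [mem_inter, mem_union]
  constructor
  · rintro ⟨h3 | h3, h4⟩
    · exact h3
    · exact absurd (h2 h3) (Finset.disjoint_left.mp h h4)
  · intro h3
    exact ⟨Or.inl h3, h1 h3⟩

theorem inter_right' {A B T₁ T₂ : Finset ℕ} (h : Disjoint A B) (h1 : T₁ ⊆ A) (h2 : T₂ ⊆ B) :
    (T₁ ∪ T₂) ∩ B = T₂ := by
  ext n
  simp only [mem_inter, mem_union]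
  constructor
  · rintro ⟨h3 | h3, h4⟩
    · exact absurd h4 (Finset.disjoint_left.mp h (h1 h3))
    · exact h3
  · intro h3
    exact ⟨Or.inr h3, h2 h3⟩

theorem split_log {P r c d : ℝ} (hc : 0 < c) (hd : 0 < d) :
    P * r * Real.log (P * r / (c * d)) = P * Real.log (P / c) * r + P * (r * Real.log (r / d)) := by
  by_cases hP : P = 0
  · simp [hP]
  by_cases hr : r = 0
  · simp [hr]
  have e : P * r / (c * d) = P / c * (r / d) := by field_simp
  rw [e, Real.log_mul (div_ne_zero hP hc.ne') (div_ne_zero hr hd.ne')]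
  ring

theorem t_CHAIN : J_CHAIN := by
  intro hst hone Ω _ μ _ A k q W hA h0 h1 hlaw
  obtain ⟨hlow, -, -⟩ := hst
  obtain ⟨hU, hD⟩ := hlow k
  have hl3 : ∀ n ∈ low k, 3 ≤ n := by
    intro n hn
    unfold low at hn
    exact (mem_Ico.mp hn).1
  have hb3 : ∀ n ∈ blk k, 3 ≤ n := by
    intro n hn
    unfold blk at hn
    exact (le_max_left 3 _).trans (mem_Ico.mp hn).1
  have hterm : ∀ T₁ ∈ (low k).powerset, ∀ T₂ ∈ (blk k).powerset,
      lawOn μ A (low (k + 1)) (T₁ ∪ T₂) *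
        Real.log (lawOn μ A (low (k + 1)) (T₁ ∪ T₂) / cramerOn (low (k + 1)) (T₁ ∪ T₂)) =
      lawOn μ A (low k) T₁ * Real.log (lawOn μ A (low k) T₁ / cramerOn (low k) T₁) *
          rr q (blk k) (W T₁) T₂ +
        lawOn μ A (low k) T₁ * (rr q (blk k) (W T₁) T₂ *
          Real.log (rr q (blk k) (W T₁) T₂ / cramerOn (blk k) T₂)) := by
    intro T₁ h2 T₂ h3
    rw [mem_powerset] at h2 h3
    have h4 : T₁ ∪ T₂ ⊆ low (k + 1) := by
      rw [hU]
      exact union_subset_union h2 h3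
    rw [hlaw _ h4, inter_left' hD h2 h3, inter_right' hD h2 h3, hU, cramer_union hD h2 h3]
    exact split_log (cramerOn_pos hl3 h2) (cramerOn_pos hb3 h3)
  have e1 : relEntropy μ A (low (k + 1)) = ∑ T₁ ∈ (low k).powerset, ∑ T₂ ∈ (blk k).powerset,
      (lawOn μ A (low (k + 1)) (T₁ ∪ T₂) *
        Real.log (lawOn μ A (low (k + 1)) (T₁ ∪ T₂) / cramerOn (low (k + 1)) (T₁ ∪ T₂))) := by
    unfold relEntropy
    conv_lhs => rw [show (low (k + 1)).powerset = (low k ∪ blk k).powerset from by rw [hU]]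
    exact sum_powerset_union hD _
  rw [e1]
  unfold relEntropy
  rw [← sum_add_distrib]
  apply sum_le_sum
  intro T₁ h2
  rw [sum_congr rfl (hterm T₁ h2), sum_add_distrib, ← mul_sum, ← mul_sum]
  obtain ⟨o1, -, o3⟩ := hone (blk k) (W T₁) q hb3 h0 h1
  rw [o1, mul_one]
  have hP : 0 ≤ lawOn μ A (low k) T₁ := measureReal_nonneg
  have := mul_le_mul_of_nonneg_left o3 hP
  linarith

end Pool.Agent.Q222.GE.CHAIN
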