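import Pool.Agent.Q222.GE.STEP

/-!
# Project GE, job GA: combinatorics of the constructions
-/

set_option autoImplicit false

namespace Pool.Agent.Q222.GE

open Finset Pool.Agent.Q120.GE

theorem rep_zero {S : Set ℕ} {n : ℕ}
    (h : ∀ a b : ℕ, a + b = n → 3 ≤ a → a ≤ b → a ∈ S → b ∈ S → False) : rep S n = 0 := by
  classical
  unfold rep
  rw [Finset.card_eq_zero, Finset.filter_eq_empty_iff]
  rintro a ha ⟨h1, h2, h3, h4⟩
  rw [mem_range] at ha
  rcases le_total a (n - a) with h5 | h5
  · exact h a (n - a) (by omega) h3 h5 h1 h2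
  · exact h (n - a) a (by omega) h4 h5 h2 h1

theorem t_GA : J_GA := by
  intro hst
  obtain ⟨-, -, hst⟩ := hst
  refine ⟨?_, ?_, ?_, ?_, ?_⟩
  · intro R c k hk
    obtain ⟨-, hst⟩ := hst Wa R c
    obtain ⟨-, s2, s3⟩ := hst k
    have h2 : 2 ^ (k + 1) = 2 * 2 ^ k := by rw [pow_succ]; ring
    apply rep_zero
    intro a b hab ha hle hma hmb
    have hb : b ∈ blk k := by
      rw [mem_blk]
      omega
    have h3 := ((s3 b hb).mp hmb).2
    have h4 : b ∉ Wa k (step Wa R c k) := fun h => h3 ⟨hk, h⟩
    unfold Wa at h4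
    rw [mem_filter] at h4
    by_cases hb2 : b = 2 ^ k
    · exact h4 ⟨hb, Or.inl hb2⟩
    · have hlow : a ∈ low k := by
        rw [mem_low]
        have := (mem_blk.mp hb)
        omega
      have h5 := (s2 a hlow).mp hma
      apply h4
      refine ⟨hb, Or.inr ?_⟩
      have e : 2 ^ (k + 1) - b = a := by omega
      rw [e]
      exact h5
  · intro k S
    have h1 : Wa k S ⊆ insert (2 ^ k) (S.image (fun s => 2 ^ (k + 1) - s)) := by
      intro b hb
      unfold Wa at hb
      rw [mem_filter] at hb
      rw [mem_insert, mem_image]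
      rcases hb.2 with h | h
      · exact Or.inl h
      · right
        refine ⟨_, h, ?_⟩
        have := mem_blk.mp hb.1
        omega
    refine (card_le_card h1).trans ((card_insert_le _ _).trans ?_)
    have := card_image_le (s := S) (f := fun s => 2 ^ (k + 1) - s)
    omega
  · intro R c K m hK hm h4m hKc hKc1
    obtain ⟨-, hst⟩ := hst (Wb K m) R c
    obtain ⟨-, s2, s3⟩ := hst K
    obtain ⟨-, -, t3⟩ := hst (K - 1)
    have h2 : 2 ^ (K + 1) = 2 * 2 ^ K := by rw [pow_succ]; ring
    have h2' : 2 ^ K = 2 * 2 ^ (K - 1) := by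
      obtain ⟨j, rfl⟩ : ∃ j, K = j + 1 := ⟨K - 1, by omega⟩
      rw [Nat.add_sub_cancel, pow_succ]; ring
    have h4 : 4 ≤ 2 ^ K := by
      calc 4 = 2 ^ 2 := by norm_num
        _ ≤ 2 ^ K := Nat.pow_le_pow_right (by norm_num) hK
    have key : ∀ i ∈ Icc 1 m, rep (del (Wb K m) R c) (2 ^ (K + 1) - 2 * i) = 0 := by
      intro i hi
      rw [mem_Icc] at hi
      apply rep_zero
      intro a b hab ha hle hma hmb
      by_cases hbK : 2 ^ K ≤ b
      · have hb : b ∈ blk K := by
          rw [mem_blk]
          omega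
        have h3 := ((s3 b hb).mp hmb).2
        have h5 : b ∉ Wb K m K (step (Wb K m) R c K) := fun h => h3 ⟨hKc, h⟩
        unfold Wb at h5
        rw [if_pos rfl, mem_filter] at h5
        by_cases hb2 : b = 2 ^ K
        · exact h5 ⟨hb, Or.inl hb2⟩
        · have hlow : a ∈ low K := by
            rw [mem_low]
            omega
          have h6 := (s2 a hlow).mp hma
          apply h5
          refine ⟨hb, Or.inr ⟨i, mem_Icc.mpr hi, ?_⟩⟩
          have e : 2 ^ (K + 1) - 2 * i - b = a := by omega
          rw [e]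
          exact h6
      · push Not at hbK
        have hab2 : a ∈ blk (K - 1) := by
          rw [mem_blk]
          have e : K - 1 + 1 = K := by omega
          rw [e]
          omega
        have h3 := ((t3 a hab2).mp hma).2
        apply h3
        refine ⟨hKc1, ?_⟩
        unfold Wb
        rw [if_neg (by omega), if_pos (by omega), mem_Ico]
        omega
    unfold zero
    have h5 : (Icc 1 m).card ≤ ((Ico (2 ^ K) (2 ^ (K + 1))).filter
        (fun n => Even n ∧ rep (del (Wb K m) R c) n = 0)).card := by
      apply card_le_card_of_injOn (fun i => 2 ^ (K + 1) - 2 * i)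
      · intro i hi
        have hi' := mem_Icc.mp (mem_coe.mp hi)
        rw [mem_coe, mem_filter, mem_Ico]
        beta_reduce
        refine ⟨by omega, ?_, key i (mem_coe.mp hi)⟩
        rw [Nat.even_iff]
        omega
      · intro i hi j hj hij
        have hi' := mem_Icc.mp (mem_coe.mp hi)
        have hj' := mem_Icc.mp (mem_coe.mp hj)
        simp only at hij
        omega
    rw [Nat.card_Icc] at h5
    omega
  · intro K m S hS
    have h1 : Wb K m K S ⊆ insert (2 ^ K)
        ((Icc 1 m ×ˢ S).image (fun x => 2 ^ (K + 1) - 2 * x.1 - x.2)) := by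
      intro b hb
      unfold Wb at hb
      rw [if_pos rfl, mem_filter] at hb
      rw [mem_insert, mem_image]
      rcases hb.2 with h | ⟨i, hi, h⟩
      · exact Or.inl h
      · right
        refine ⟨(i, 2 ^ (K + 1) - 2 * i - b), mem_product.mpr ⟨hi, h⟩, ?_⟩
        have h0 : 2 ^ (K + 1) - 2 * i - b ≠ 0 := fun h3 => hS (h3 ▸ h)
        simp only
        omega
    refine (card_le_card h1).trans ((card_insert_le _ _).trans ?_)
    have h2 := card_image_le (s := Icc 1 m ×ˢ S) (f := fun x => 2 ^ (K + 1) - 2 * x.1 - x.2)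
    rw [card_product, Nat.card_Icc, Nat.add_sub_cancel] at h2
    omega
  · intro S k hk hS
    have h2 : 2 ^ (k + 1) = 2 * 2 ^ k := by rw [pow_succ]; ring
    have h64 : 64 ≤ 2 ^ k := by
      calc 64 = 2 ^ 6 := by norm_num
        _ ≤ 2 ^ k := Nat.pow_le_pow_right (by norm_num) hk
    obtain ⟨N, hN⟩ : ∃ N, N = 2 ^ k := ⟨_, rfl⟩
    have key : ∀ n, n % 3 ≠ 2 → rep S n = 0 := by
      intro n hn
      apply rep_zero
      intro a b hab ha hle hma hmb
      have h3 := hS a hma ha
      have h4 := hS b hmb (by omega)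
      omega
    have h5 : (range (2 * ((N - 4) / 6))).card ≤ ((Ico (2 ^ k) (2 ^ (k + 1))).filter
        (fun n => Even n ∧ rep S n = 0)).card := by
      apply card_le_card_of_injOn (fun i => 6 * ((N + 5) / 6) + 6 * (i / 2) + 4 * (i % 2))
      · intro i hi
        have hi' := mem_range.mp (mem_coe.mp hi)
        rw [mem_coe, mem_filter, mem_Ico, h2, ← hN]
        beta_reduce
        refine ⟨by omega, ?_, key _ (by omega)⟩
        rw [Nat.even_iff]
        omega
      · intro i hi j hj hij
        simp only at hij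
        omega
    unfold zero
    rw [card_range] at h5
    omega

end Pool.Agent.Q222.GE
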