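import Pool.Agent.Q120.GE.Stm

/-!
# Project GE, job ONE: the relative entropy of one step
-/

set_option autoImplicit false

namespace Pool.Agent.Q222.GE.ONE

open Finset Pool.Agent.Q120.ET Pool.Agent.Q120.GE

/-- the probability that `W` is left out -/
noncomputable def QQ (W : Finset ℕ) : ℝ := ∏ n ∈ W, (1 - 1 / Real.log n)

theorem fac_pos {n : ℕ} (hn : 3 ≤ n) : 0 < 1 - 1 / Real.log n := by
  have h1 := one_lt_log hn
  have : 1 / Real.log n < 1 := by
    rw [div_lt_one (by linarith)]; exact h1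
  linarith

theorem QQ_pos {W : Finset ℕ} (hW : ∀ n ∈ W, 3 ≤ n) : 0 < QQ W :=
  prod_pos (fun n hn => fac_pos (hW n hn))

theorem QQ_le {W : Finset ℕ} (hW : ∀ n ∈ W, 3 ≤ n) : QQ W ≤ 1 := by
  unfold QQ
  apply prod_le_one (fun n hn => (fac_pos (hW n hn)).le)
  intro n hn
  have h1 := one_lt_log (hW n hn)
  have : 0 < 1 / Real.log n := by positivity
  linarith

theorem log_QQ {W : Finset ℕ} (hW : ∀ n ∈ W, 3 ≤ n) : Real.log (QQ W) = -∑ n ∈ W, lam n := by
  unfold QQ lam
  rw [Real.log_prod (fun n hn => (fac_pos (hW n hn)).ne'), sum_neg_distrib, neg_neg]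

theorem cramer_split {B W T : Finset ℕ} (hW : W ⊆ B) (hT : T ⊆ B \ W) :
    cramerOn B T = cramerOn (B \ W) T * QQ W := by
  unfold cramerOn QQ
  rw [mul_assoc]
  congr 1
  have h3 : B \ T = ((B \ W) \ T) ∪ W := by
    ext n
    simp only [mem_sdiff, mem_union]
    constructor
    · rintro ⟨h4, h5⟩
      by_cases h6 : n ∈ W
      · exact Or.inr h6
      · exact Or.inl ⟨⟨h4, h6⟩, h5⟩
    · rintro (⟨⟨h4, _⟩, h5⟩ | h6)
      · exact ⟨h4, h5⟩
      · refine ⟨hW h6, fun h7 => ?_⟩
        exact (mem_sdiff.1 (hT h7)).2 h6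
  rw [h3, prod_union]
  rw [Finset.disjoint_left]
  intro n hn1 hn2
  exact (mem_sdiff.1 (mem_sdiff.1 hn1).1).2 hn2

theorem sum_disj (B W : Finset ℕ) (f : Finset ℕ → ℝ) :
    ∑ T ∈ B.powerset, (if Disjoint T W then f T else 0) = ∑ T ∈ (B \ W).powerset, f T := by
  rw [← sum_filter]
  congr 1
  ext T
  rw [mem_filter, mem_powerset, mem_powerset, subset_sdiff]

theorem sum_rr (B W : Finset ℕ) (q : ℝ) : ∑ T ∈ B.powerset, rr q B W T = 1 := by
  unfold rr
  rw [sum_add_distrib, ← mul_sum, ← mul_sum, sum_disj, sum_cramerOn, sum_cramerOn]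
  ring

theorem rr_nonneg {B W : Finset ℕ} {q : ℝ} (hB : ∀ n ∈ B, 3 ≤ n) (h0 : 0 ≤ q) (h1 : q ≤ 1)
    {T : Finset ℕ} (hT : T ⊆ B) : 0 ≤ rr q B W T := by
  unfold rr
  have h2 := (cramerOn_pos hB hT).le
  have h3 : 0 ≤ (if Disjoint T W then cramerOn (B \ W) T else 0) := by
    split_ifs with h
    · exact (cramerOn_pos (fun n hn => hB n (mem_sdiff.1 hn).1) (subset_sdiff.mpr ⟨hT, h⟩)).le
    · exact le_rfl
  have := mul_nonneg (by linarith : 0 ≤ 1 - q) h2
  have := mul_nonneg h0 h3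
  linarith

theorem elem {q Q L : ℝ} (h0 : 0 ≤ q) (h1 : q ≤ 1) (hQ0 : 0 < Q) (hQ1 : Q ≤ 1)
    (hL : Real.log Q = -L) :
    ((1 - q) * Q + q) * Real.log (1 - q + q / Q) ≤ 2 * q * (1 + L) := by
  have hL0 : 0 ≤ L := by
    have := Real.log_nonpos hQ0.le hQ1
    linarith
  have hinv : 1 ≤ 1 / Q := by rw [le_div_iff₀ hQ0]; linarith
  have hx1 : 1 ≤ 1 - q + q / Q := by
    have : q * 1 ≤ q * (1 / Q) := mul_le_mul_of_nonneg_left hinv h0
    rw [mul_one_div] at this
    linarith
  have hlog0 : 0 ≤ Real.log (1 - q + q / Q) := Real.log_nonneg hx1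
  by_cases hc : Q ≤ q
  · have h2 : (1 - q) * Q + q ≤ 2 * q := by nlinarith
    have h3 : 1 - q + q / Q ≤ 1 / Q := by
      have : (1 - q) * 1 ≤ (1 - q) * (1 / Q) := mul_le_mul_of_nonneg_left hinv (by linarith)
      have e : 1 / Q = (1 - q) * (1 / Q) + q / Q := by ring
      linarith
    have h4 : Real.log (1 - q + q / Q) ≤ L := by
      have := Real.log_le_log (by linarith) h3
      rw [one_div, Real.log_inv, hL, neg_neg] at this
      exact this
    calc ((1 - q) * Q + q) * Real.log (1 - q + q / Q) ≤ 2 * q * L :=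
          mul_le_mul h2 h4 hlog0 (by linarith)
      _ ≤ 2 * q * (1 + L) := mul_le_mul_of_nonneg_left (by linarith) (by linarith)
  · push Not at hc
    have h2 : (1 - q) * Q + q ≤ 2 * Q := by nlinarith
    have h3 : Real.log (1 - q + q / Q) ≤ q / Q := by
      have := Real.log_le_sub_one_of_pos (by linarith : 0 < 1 - q + q / Q)
      linarith
    calc ((1 - q) * Q + q) * Real.log (1 - q + q / Q) ≤ 2 * Q * (q / Q) :=
          mul_le_mul h2 h3 hlog0 (by linarith)
      _ = 2 * q := by field_simp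
      _ ≤ 2 * q * (1 + L) := by nlinarith

theorem t_ONE : J_ONE := by
  intro B W q hB h0 h1
  refine ⟨sum_rr B W q, fun T hT => rr_nonneg hB h0 h1 (mem_powerset.mp hT), ?_⟩
  set V := W ∩ B with hV
  have hVB : V ⊆ B := inter_subset_right
  have hV3 : ∀ n ∈ V, 3 ≤ n := fun n hn => hB n (hVB hn)
  have hBV : B \ W = B \ V := by
    ext n
    rw [hV, mem_sdiff, mem_sdiff, mem_inter]
    tauto
  set Q := QQ V with hQ
  have hQ0 : 0 < Q := QQ_pos hV3
  have hQ1 : Q ≤ 1 := QQ_le hV3
  have hL := log_QQ hV3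
  rw [← hQ] at hL
  set x := 1 - q + q / Q with hx
  have hterm : ∀ T ∈ B.powerset, rr q B W T * Real.log (rr q B W T / cramerOn B T) ≤
      (if Disjoint T W then rr q B W T * Real.log x else 0) := by
    intro T hT
    rw [mem_powerset] at hT
    have hc := cramerOn_pos hB hT
    split_ifs with h
    · have h2 : T ⊆ B \ V := by rw [← hBV, subset_sdiff]; exact ⟨hT, h⟩
      have h3 : rr q B W T = cramerOn B T * x := by
        unfold rr
        rw [if_pos h, hBV, hx, cramer_split hVB h2, ← hQ]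
        field_simp
      have h4 : rr q B W T / cramerOn B T = x := by
        rw [h3, mul_comm, mul_div_assoc, div_self hc.ne', mul_one]
      rw [h4]
    · have h3 : rr q B W T = (1 - q) * cramerOn B T := by
        unfold rr
        rw [if_neg h, mul_zero, add_zero]
      have h4 : rr q B W T / cramerOn B T = 1 - q := by
        rw [h3, mul_div_assoc, div_self hc.ne', mul_one]
      rw [h4]
      apply mul_nonpos_of_nonneg_of_nonpos (rr_nonneg hB h0 h1 hT)
      exact Real.log_nonpos (by linarith) (by linarith)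
  refine (sum_le_sum hterm).trans ?_
  rw [sum_disj B W (fun T => rr q B W T * Real.log x), ← sum_mul]
  have hs : ∑ T ∈ (B \ W).powerset, rr q B W T = (1 - q) * Q + q := by
    have h2 : ∀ T ∈ (B \ W).powerset, rr q B W T =
        ((1 - q) * Q + q) * cramerOn (B \ W) T := by
      intro T hT
      rw [mem_powerset] at hT
      have h3 := subset_sdiff.mp hT
      have h4 : T ⊆ B \ V := by rw [← hBV]; exact hT
      unfold rr
      rw [if_pos h3.2, cramer_split hVB h4, hBV, ← hQ]
      ring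
    rw [sum_congr rfl h2, ← mul_sum, sum_cramerOn, mul_one]
  rw [hs]
  exact elem h0 h1 hQ0 hQ1 hL

end Pool.Agent.Q222.GE.ONE
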