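import Pool.Agent.Q120.GE.Stm

/-!
# Project GE, job STEP: elementary properties of the construction
-/

set_option autoImplicit false

namespace Pool.Agent.Q222.GE

open Finset Pool.Agent.Q120.GE

theorem mem_low {k n : ℕ} : n ∈ low k ↔ 3 ≤ n ∧ n < 2 ^ k := by
  unfold low
  rw [mem_Ico]

theorem mem_blk {k n : ℕ} : n ∈ blk k ↔ (3 ≤ n ∧ 2 ^ k ≤ n) ∧ n < 2 ^ (k + 1) := by
  unfold blk
  rw [mem_Ico, max_le_iff]

section

variable (W : ℕ → Finset ℕ → Finset ℕ) (R c : Set ℕ)

theorem mem_step_succ {k n : ℕ} : n ∈ step W R c (k + 1) ↔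
    n ∈ step W R c k ∨ (n ∈ blk k ∧ n ∈ R ∧ ¬ (k ∈ c ∧ n ∈ W k (step W R c k))) := by
  classical
  show n ∈ step W R c k ∪ (blk k).filter _ ↔ _
  rw [mem_union, mem_filter]

theorem step_sub (k : ℕ) : step W R c k ⊆ low k := by
  induction k with
  | zero => intro n hn; exact absurd hn (by simp [step])
  | succ k ih =>
    intro n hn
    rw [mem_step_succ] at hn
    rw [mem_low]
    have h2 : 2 ^ (k + 1) = 2 * 2 ^ k := by rw [pow_succ]; ring
    rcases hn with hn | ⟨hn, -⟩
    · have := mem_low.mp (ih hn)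
      omega
    · have := mem_blk.mp hn
      omega

theorem step_R (k : ℕ) {n : ℕ} (hn : n ∈ step W R c k) : n ∈ R := by
  induction k with
  | zero => exact absurd hn (by simp [step])
  | succ k ih =>
    rw [mem_step_succ] at hn
    rcases hn with hn | ⟨-, hn, -⟩
    · exact ih hn
    · exact hn

theorem step_low {k j n : ℕ} (hkj : k ≤ j) (hn : n ∈ low k) :
    n ∈ step W R c j ↔ n ∈ step W R c k := by
  induction j, hkj using Nat.le_induction with
  | base => exact Iff.rfl
  | succ j hj ih =>
    rw [mem_step_succ, ← ih]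
    constructor
    · rintro (h | ⟨h, -⟩)
      · exact h
      · exfalso
        have h1 := mem_blk.mp h
        have h2 := mem_low.mp hn
        have h3 : 2 ^ k ≤ 2 ^ j := Nat.pow_le_pow_right (by norm_num) hj
        omega
    · exact Or.inl

theorem step_mono {j k : ℕ} (hjk : j ≤ k) : step W R c j ⊆ step W R c k := by
  induction k, hjk using Nat.le_induction with
  | base => exact Finset.Subset.refl _
  | succ k hk ih =>
    intro n hn
    rw [mem_step_succ]
    exact Or.inl (ih hn)

theorem mem_del_low {k n : ℕ} (hn : n ∈ low k) : n ∈ del W R c ↔ n ∈ step W R c k := by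
  constructor
  · rintro ⟨j, hj⟩
    rcases le_total k j with h | h
    · exact (step_low W R c h hn).mp hj
    · exact step_mono W R c h hj
  · intro h
    exact ⟨k, h⟩

end

theorem low_succ (k : ℕ) : low (k + 1) = low k ∪ blk k ∧ Disjoint (low k) (blk k) := by
  have h2 : 2 ^ (k + 1) = 2 * 2 ^ k := by rw [pow_succ]; ring
  constructor
  · ext n
    rw [mem_union, mem_low, mem_low, mem_blk]
    omega
  · rw [Finset.disjoint_left]
    intro n h1 h3
    have h4 := mem_low.mp h1
    have h5 := mem_blk.mp h3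
    omega

theorem t_STEP : J_STEP := by
  refine ⟨low_succ, ?_, ?_⟩
  · intro n hn
    refine ⟨Nat.log 2 n, mem_blk.mpr ⟨⟨hn, Nat.pow_log_le_self 2 (by omega)⟩, ?_⟩⟩
    exact Nat.lt_pow_succ_log_self (by norm_num) n
  · intro W R c
    refine ⟨?_, fun k => ⟨step_sub W R c k, fun n hn => mem_del_low W R c hn, ?_⟩⟩
    · rintro n ⟨k, hk⟩
      exact ⟨(mem_low.mp (step_sub W R c k hk)).1, step_R W R c k hk⟩
    · intro n hn
      have h1 : n ∈ low (k + 1) := by
        rw [(low_succ k).1, mem_union]
        exact Or.inr hn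
      rw [mem_del_low W R c h1, mem_step_succ]
      constructor
      · rintro (h | ⟨-, h⟩)
        · exfalso
          exact Finset.disjoint_left.mp (low_succ k).2 (step_sub W R c k h) hn
        · exact h
      · intro h
        exact Or.inr ⟨hn, h⟩

end Pool.Agent.Q222.GE
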